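import Pool.Agent.Helper40.Haagerup.Final

/-!
# The Haagerup property does not pass to C*-subalgebras

There are a unital C*-algebra `A` with a faithful tracial state `τ` such that `(A, τ)` has the
Haagerup property, and a C*-subalgebra `B` of `A` (containing the unit of `A`) such that
`(B, τ|B)` does not have the Haagerup property.

Here `A` is the group von Neumann algebra of `(ℤ/2 ≀ F₂) × (ℤ/2)^(ℝ)` with its canonical trace.
-/

open Filter Topology
open scoped ComplexOrder CStarAlgebra

namespace Pool.Agent.Results.MP_9dda70_an.SubalgebraNotHaagerup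

universe u

section Definitions

variable {A : Type u} [CStarAlgebra A] [PartialOrder A] [StarOrderedRing A]

/-- `τ` is a faithful tracial state on the unital C*-algebra `A` (positivity is part of the type
`A →ₚ[ℂ] ℂ` of `τ`). -/
structure IsFaithfulTracialState (τ : A →ₚ[ℂ] ℂ) : Prop where
  map_one : τ 1 = 1
  tracial : ∀ a b : A, τ (a * b) = τ (b * a)
  faithful : ∀ a : A, τ (star a * a) = 0 → a = 0

/-- `‖a‖_τ = τ(a* a)^(1/2)`. -/
noncomputable def traceNorm (τ : A →ₚ[ℂ] ℂ) (a : A) : ℝ := Real.sqrt (τ (star a * a)).re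

/-- The canonical map of `A` into `L²(A, τ)`, the GNS Hilbert space of `τ` (Mathlib's
`PositiveLinearMap.GNS`, the completion of `A` for the inner product `⟨a, b⟩ = τ(a* b)`). -/
noncomputable def toL2 (τ : A →ₚ[ℂ] ℂ) (a : A) : τ.GNS := ((τ.toPreGNS a : τ.PreGNS) : τ.GNS)

/-- `(A, τ)` has the Haagerup property: there is a net of completely positive contractive maps
`Φ i : A → A` with `τ ∘ Φ i ≤ τ` on the positive cone, each of which extends to a compact operator
on `L²(A, τ)`, such that `‖Φ i a - a‖_τ → 0` for every `a` in `A`. -/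
def HaagerupProperty (τ : A →ₚ[ℂ] ℂ) : Prop :=
  ∃ (ι : Type u) (_ : Preorder ι) (_ : IsDirected ι (· ≤ ·)) (_ : Nonempty ι) (Φ : ι → A →CP A),
    (∀ i a, ‖Φ i a‖ ≤ ‖a‖) ∧
    (∀ i a, 0 ≤ a → τ (Φ i a) ≤ τ a) ∧
    (∀ i, ∃ K : τ.GNS →L[ℂ] τ.GNS, IsCompactOperator K ∧ ∀ a, K (toL2 τ a) = toL2 τ (Φ i a)) ∧
    (∀ a, Tendsto (fun i => traceNorm τ (Φ i a - a)) atTop (𝓝 0))

/-- The restriction of a positive functional to a star subalgebra `B` (with the induced order). -/
noncomputable def restrict (τ : A →ₚ[ℂ] ℂ) (B : StarSubalgebra ℂ A) : B →ₚ[ℂ] ℂ where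
  toFun b := τ (b : A)
  map_add' x y := by simp
  map_smul' c x := by simp
  monotone' x y hxy := by
    apply OrderHomClass.mono τ
    exact hxy

end Definitions

lemma traceNorm_eq {A : Type u} [CStarAlgebra A] [PartialOrder A] [StarOrderedRing A]
    (τ : A →ₚ[ℂ] ℂ) (a : A) : traceNorm τ a = ‖Helper40.Haagerup.toGNS τ a‖ := by
  have h := Helper40.Haagerup.norm_toGNS_sq τ a
  unfold traceNorm
  rw [← h]
  have h2 : (((‖Helper40.Haagerup.toGNS τ a‖ : ℂ)) ^ 2).re =
      ‖Helper40.Haagerup.toGNS τ a‖ ^ 2 := by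
    rw [← Complex.ofReal_pow, Complex.ofReal_re]
  rw [h2, Real.sqrt_sq (norm_nonneg _)]

lemma haagerup_iff {A : Type u} [CStarAlgebra A] [PartialOrder A] [StarOrderedRing A]
    (τ : A →ₚ[ℂ] ℂ) : HaagerupProperty τ ↔ Helper40.Haagerup.HaagerupProperty τ := by
  unfold HaagerupProperty Helper40.Haagerup.HaagerupProperty
  simp only [traceNorm_eq]
  rfl

/-- There are a unital C*-algebra `A`, a faithful tracial state `τ` on `A` such that `(A, τ)` has
the Haagerup property, and a norm closed star subalgebra `B` of `A` (whose induced order is its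
C*-algebra order) such that `(B, τ|B)` does not have the Haagerup property. -/
theorem result :
    ∃ (A : Type) (_ : CStarAlgebra A) (_ : PartialOrder A) (_ : StarOrderedRing A)
      (τ : A →ₚ[ℂ] ℂ) (B : StarSubalgebra ℂ A) (_ : IsClosed (B : Set A))
      (_ : StarOrderedRing B),
      IsFaithfulTracialState τ ∧ HaagerupProperty τ ∧ ¬ HaagerupProperty (restrict τ B) := by
  obtain ⟨A, i1, i2, i3, τ, B, hB, h1, h2, h3⟩ := Helper40.Haagerup.main
  refine ⟨A, i1, i2, i3, τ, B, hB, inferInstance, ⟨h1.map_one, h1.tracial, h1.faithful⟩,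
    (haagerup_iff τ).mpr h2, fun h => h3 ?_⟩
  exact (haagerup_iff _).mp h

end Pool.Agent.Results.MP_9dda70_an.SubalgebraNotHaagerup
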